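import Pool.Agent.Helper45.LGB.St2

/-!
Project LGB, module ENG: the linearised Engel identity in the lower central series.
-/

set_option autoImplicit false

namespace Pool.Agent.Helper15.LGB

open Pool.Agent.Helper45.LGB Pool.Agent.Helper83.RB
open scoped commutatorElement

private lemma ic_cons {G : Type} [Group G] (a x : G) (l : List G) :
    ic a (x :: l) = ic ⁅a, x⁆ l := rfl

private lemma map_ic {K G : Type} [Group K] [Group G] (φ : K →* G) (l : List K) :
    ∀ a : K, φ (ic a l) = ic (φ a) (l.map φ) := by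
  induction l with
  | nil => intro a; rfl
  | cons x l ih =>
    intro a
    rw [ic_cons, ih, List.map_cons, ic_cons, map_commutatorElement]

private lemma ic_one {G : Type} [Group G] (l : List G) : ic (1 : G) l = 1 := by
  induction l with
  | nil => rfl
  | cons x l ih => rw [ic_cons, commutatorElement_one_left, ih]

private lemma ic_of_mem {G : Type} [Group G] (l : List G) (h : (1 : G) ∈ l) :
    ∀ a : G, ic a l = 1 := by
  induction l with
  | nil => simp at h
  | cons x l ih =>
    intro a
    rw [ic_cons]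
    rcases List.mem_cons.1 h with h | h
    · rw [← h, commutatorElement_one_right, ic_one]
    · exact ih h _

private lemma sum_ge {n : ℕ} (ω : Fin n → ℕ) (hω : ∀ j, 1 ≤ ω j) (u : List (Fin n))
    (hu : n < u.length) (hall : ∀ i, i ∈ u) : (∑ j, ω j) + 1 ≤ (u.map ω).sum := by
  classical
  have hf : u.toFinset = Finset.univ := by
    ext i
    simp [hall i]
  have h1 : (u.map ω).sum = ∑ j, u.count j * ω j := by
    rw [Finset.sum_list_map_count, hf]
    simp
  have h2 : u.length = ∑ j, u.count j := by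
    have := Finset.sum_list_map_count u (fun _ => (1 : ℕ))
    rw [hf] at this
    simpa using this
  have h3 : ∑ j, (ω j + u.count j) ≤ ∑ j, (u.count j * ω j + 1) := by
    refine Finset.sum_le_sum fun j _ => ?_
    have hc : 1 ≤ u.count j := List.count_pos_iff.2 (hall j)
    obtain ⟨a, ha⟩ := Nat.exists_eq_add_of_le hc
    obtain ⟨b, hb⟩ := Nat.exists_eq_add_of_le (hω j)
    rw [ha, hb]
    nlinarith [Nat.zero_le (a * b)]
  rw [Finset.sum_add_distrib, Finset.sum_add_distrib, ← h1, ← h2] at h3
  simp only [Finset.sum_const, Finset.card_univ, Fintype.card_fin, smul_eq_mul, mul_one] at h3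
  omega

/-- ENG -/
theorem hENG (hGMA : StGMA) (hCUB : StCUB) (hCUV : StCUV) (hABE : StABE) : StENG := by
  intro p hp G _ hexp i ω g v hi hω hv hg
  obtain ⟨-, hanti, hic⟩ := hGMA G
  obtain ⟨hcom, hmono⟩ := hCUB (p - 1) G ω
  have hexpK : ∀ F : Finset (Fin (p - 1)) → G, F ^ p = 1 := by
    intro F
    funext T
    exact hexp (F T)
  have hnorm : ∀ t : ℕ, ∀ c ∈ (Cb ω 0 : Subgroup (Finset (Fin (p - 1)) → G)),
      ∀ a ∈ (Cb ω t : Subgroup (Finset (Fin (p - 1)) → G)), c * a * c⁻¹ ∈ Cb ω t := by
    intro t c hc a ha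
    have h1 : ⁅c, a⁆ ∈ (Cb ω (0 + t) : Subgroup (Finset (Fin (p - 1)) → G)) :=
      hcom 0 t (Subgroup.commutator_mem_commutator hc ha)
    rw [zero_add] at h1
    have h2 : c * a * c⁻¹ = ⁅c, a⁆ * a := by
      rw [commutatorElement_def]
      group
    rw [h2]
    exact mul_mem h1 ha
  have hab : ∀ a ∈ (Cb ω i : Subgroup (Finset (Fin (p - 1)) → G)),
      ∀ a' ∈ (Cb ω i : Subgroup (Finset (Fin (p - 1)) → G)), ⁅a, a'⁆ ∈ Cb ω (2 * i) := by
    intro a ha a' ha'
    rw [two_mul]
    exact hcom i i (Subgroup.commutator_mem_commutator ha ha')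
  set Y : Finset (Fin (p - 1)) → G := fc ∅ v with hY
  set X : Fin (p - 1) → (Finset (Fin (p - 1)) → G) := fun j => fc {j} (g j) with hX
  have hYm : Y ∈ (Cb ω i : Subgroup (Finset (Fin (p - 1)) → G)) :=
    Subgroup.subset_closure ⟨∅, v, by simpa [wt] using hv, rfl⟩
  have hXm : ∀ j, X j ∈ (Cb ω 0 : Subgroup (Finset (Fin (p - 1)) → G)) := fun j =>
    Subgroup.subset_closure ⟨{j}, g j, by simpa [wt] using hg j, rfl⟩
  obtain ⟨z, hz, hF⟩ := hABE p (Finset (Fin (p - 1)) → G) hexpK (Cb ω i) (Cb ω (2 * i)) (Cb ω 0)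
    (hmono i (2 * i) (by omega)) (hmono 0 i (Nat.zero_le _)) (hnorm i) (hnorm (2 * i)) hab Y X
    hYm hXm
  set P : Finset (Fin (p - 1)) → G :=
    ((Finset.univ : Finset (Equiv.Perm (Fin (p - 1)))).toList.map fun σ =>
      ic Y (List.ofFn fun i => X (σ i))).prod with hP
  -- evaluation
  let ev : Finset (Fin (p - 1)) → ((Finset (Fin (p - 1)) → G) →* G) := fun T =>
    Pi.evalMonoidHom (fun _ => G) T
  have hev : ∀ T F, ev T F = F T := fun _ _ => rfl
  have hF1 : ∀ T, T ≠ Finset.univ → (P * z) T = 1 := by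
    intro T hT
    obtain ⟨j, hj⟩ : ∃ j, j ∉ T := by
      by_contra hc
      push Not at hc
      exact hT (Finset.eq_univ_iff_forall.2 hc)
    have hXj : X j T = 1 := by
      simp only [hX, fc]
      rw [if_neg]
      rw [Finset.singleton_subset_iff]
      exact hj
    have hkey : ∀ l : List (Fin (p - 1)), j ∈ l → ev T (ic Y (l.map X)) = 1 := by
      intro l hl
      rw [map_ic]
      refine ic_of_mem _ ?_ _
      rw [List.map_map, List.mem_map]
      exact ⟨j, hl, hXj⟩
    have hz1 : ev T z = 1 := by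
      have hle : Subgroup.closure {h : Finset (Fin (p - 1)) → G | ∃ u : List (Fin (p - 1)),
          p - 1 < u.length ∧ (∀ i, i ∈ u) ∧ h = ic Y (u.map X)} ≤ (ev T).ker := by
        rw [Subgroup.closure_le]
        rintro h ⟨u, -, hall, rfl⟩
        exact hkey u (hall j)
      exact hle hz
    have hP1 : ev T P = 1 := by
      rw [hP, map_list_prod, List.map_map]
      refine List.prod_eq_one ?_
      intro x hx
      obtain ⟨σ, -, rfl⟩ := List.mem_map.1 hx
      simp only [Function.comp_apply]
      have e : (List.ofFn fun i => X (σ i)) = (List.ofFn fun i => σ i).map X := by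
        rw [List.map_ofFn]
        rfl
      rw [e]
      refine hkey _ ?_
      rw [List.mem_ofFn]
      exact ⟨σ.symm j, σ.apply_symm_apply j⟩
    show ev T (P * z) = 1
    rw [map_mul, hP1, hz1, one_mul]
  have hFu := hCUV (p - 1) G ω (2 * i) (P * z) hF hF1
  have hwt : wt ω Finset.univ = ∑ j, ω j := rfl
  rw [hwt] at hFu
  have hFu' : (P * z) Finset.univ ∈ gm G (i + (∑ j, ω j) + 1) :=
    hanti _ _ (by omega) hFu
  have hYu : Y Finset.univ = v := by
    simp [hY, fc]
  have hXu : ∀ j, X j Finset.univ = g j := by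
    intro j
    simp [hX, fc]
  have hevu : ∀ l : List (Fin (p - 1)), ev Finset.univ (ic Y (l.map X)) = ic v (l.map g) := by
    intro l
    rw [map_ic, hev, hYu, List.map_map]
    congr 1
    refine List.map_congr_left fun j _ => ?_
    exact hXu j
  have hzu : ev Finset.univ z ∈ gm G (i + (∑ j, ω j) + 1) := by
    have hle : Subgroup.closure {h : Finset (Fin (p - 1)) → G | ∃ u : List (Fin (p - 1)),
        p - 1 < u.length ∧ (∀ i, i ∈ u) ∧ h = ic Y (u.map X)} ≤
        (gm G (i + (∑ j, ω j) + 1)).comap (ev Finset.univ) := by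
      rw [Subgroup.closure_le]
      rintro h ⟨u, hlen, hall, rfl⟩
      show ev Finset.univ (ic Y (u.map X)) ∈ gm G (i + (∑ j, ω j) + 1)
      rw [hevu]
      have h1 := hic (p - 1) i ω g v hg hv u
      have h2 := sum_ge ω hω u hlen hall
      exact hanti _ _ (by omega) h1
    exact hle hz
  have hPu : ev Finset.univ P =
      ((Finset.univ : Finset (Equiv.Perm (Fin (p - 1)))).toList.map fun σ =>
        ic v (List.ofFn fun j => g (σ j))).prod := by
    rw [hP, map_list_prod, List.map_map]
    congr 1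
    refine List.map_congr_left fun σ _ => ?_
    simp only [Function.comp_apply]
    have e : (List.ofFn fun i => X (σ i)) = (List.ofFn fun i => σ i).map X := by
      rw [List.map_ofFn]
      rfl
    have e' : (List.ofFn fun i => g (σ i)) = (List.ofFn fun i => σ i).map g := by
      rw [List.map_ofFn]
      rfl
    rw [e, e', hevu]
  rw [← hPu]
  have h3 : ev Finset.univ P = (P * z) Finset.univ * (ev Finset.univ z)⁻¹ := by
    rw [← hev Finset.univ (P * z), map_mul, mul_inv_cancel_right]
  rw [h3]
  exact mul_mem hFu' (inv_mem hzu)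

end Pool.Agent.Helper15.LGB
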